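import Mathlib

/-!
# The resultant of a cyclotomic polynomial and an integer polynomial, in any domain
-/

set_option autoImplicit false

open Finset Polynomial

namespace Pool.Agent.Q250.RP

/-- the resultant of the `m`-th cyclotomic polynomial and `P` -/
noncomputable def resC (m : ℕ) (P : ℤ[X]) : ℤ :=
  resultant (cyclotomic m ℤ) P m.totient P.natDegree

theorem resC_cast {R : Type*} [CommRing R] [IsDomain R] (m : ℕ) {ζ : R}
    (hζ : IsPrimitiveRoot ζ m) (P : ℤ[X]) :
    ((resC m P : ℤ) : R) = ∏ μ ∈ primitiveRoots m R, (P.map (Int.castRingHom R)).eval μ := by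
  classical
  have h1 : ((resC m P : ℤ) : R) = Int.castRingHom R (resC m P) := rfl
  rw [h1, resC, ← resultant_map_map, map_cyclotomic, cyclotomic_eq_prod_X_sub_primitiveRoots hζ]
  have hdeg : (∏ μ ∈ primitiveRoots m R, (X - C μ)).natDegree = m.totient := by
    rw [← cyclotomic_eq_prod_X_sub_primitiveRoots hζ, natDegree_cyclotomic]
  have h2 := resultant_prod_left (primitiveRoots m R) (fun μ => X - C μ)
    (P.map (Int.castRingHom R)) P.natDegree (by simp [leadingCoeff_X_sub_C])
    (natDegree_map_le)
  rw [hdeg] at h2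
  rw [h2]
  refine Finset.prod_congr rfl fun μ _ => ?_
  rw [natDegree_X_sub_C]
  exact resultant_X_sub_C_left _ _ _ natDegree_map_le

end Pool.Agent.Q250.RP
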