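import Mathlib
import Pool.Agent.H332R2.CastLem

/-!
# Power sums modulo `p ^ 2` and Bernoulli numbers
-/

set_option autoImplicit false

open Finset

namespace Pool.Agent.Q250.RP

variable {p : ℕ} [hp : Fact p.Prime]

theorem norm_bern_le {i : ℕ} (hi : i + 2 ≤ p) (hp3 : 3 ≤ p) : ‖((bernoulli i : ℚ) : ℚ_[p])‖ ≤ 1 := by
  apply Padic.norm_rat_le_one
  intro h
  exact Pool.Agent.H332R2.bern_den_ne hi hp3 ((ZMod.natCast_eq_zero_iff _ _).2 h)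

theorem norm_bern_le' {i : ℕ} (hi : i + 2 ≤ p) (hp3 : 3 ≤ p) (h : (p : ℤ) ∣ (bernoulli i).num) :
    ‖((bernoulli i : ℚ) : ℚ_[p])‖ ≤ (p : ℝ)⁻¹ := by
  have h1 : ((bernoulli i : ℚ) : ℚ_[p]) = ((bernoulli i).num : ℚ_[p]) / ((bernoulli i).den : ℚ_[p]) := by
    conv_lhs => rw [← Rat.num_div_den (bernoulli i)]
    push_cast
    rfl
  have h2 : ‖((bernoulli i).den : ℚ_[p])‖ = 1 := by
    rw [Padic.norm_natCast_eq_one_iff]
    rw [hp.out.coprime_iff_not_dvd]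
    intro hd
    exact Pool.Agent.H332R2.bern_den_ne hi hp3 ((ZMod.natCast_eq_zero_iff _ _).2 hd)
  have h3 : ‖((bernoulli i).num : ℚ_[p])‖ ≤ (p : ℝ) ^ (-(1 : ℕ) : ℤ) :=
    (Padic.norm_int_le_pow_iff_dvd _ 1).2 (by simpa using h)
  rw [h1, norm_div, h2, div_one]
  simpa using h3

theorem sq_dvd_power_sum {k : ℕ} (hk : 1 ≤ k) (hkp : 2 * k + 3 ≤ p)
    (hB : (p : ℤ) ∣ (bernoulli (2 * k)).num) :
    ((p : ℤ) ^ 2) ∣ ∑ a ∈ range p, (a : ℤ) ^ (2 * k) := by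
  rw [← Padic.norm_int_le_pow_iff_dvd]
  have h := sum_range_pow p (2 * k)
  have h' : ((∑ a ∈ range p, (a : ℤ) ^ (2 * k) : ℤ) : ℚ_[p]) =
      ∑ i ∈ range (2 * k + 1), ((bernoulli i : ℚ) : ℚ_[p]) * (((2 * k + 1).choose i : ℕ) : ℚ_[p]) *
        (p : ℚ_[p]) ^ (2 * k + 1 - i) / ((2 * k + 1 : ℕ) : ℚ_[p]) := by
    have := congrArg (fun q : ℚ => (q : ℚ_[p])) h
    push_cast at this ⊢
    exact this
  rw [h']
  have hp0 : (0 : ℝ) < p := by exact_mod_cast hp.out.pos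
  have hp1 : (1 : ℝ) < p := by exact_mod_cast hp.out.one_lt
  apply IsUltrametricDist.norm_sum_le_of_forall_le_of_nonneg (by positivity)
  intro i hi
  rw [mem_range] at hi
  have h1 : ‖((2 * k + 1 : ℕ) : ℚ_[p])‖ = 1 := by
    rw [Padic.norm_natCast_eq_one_iff, hp.out.coprime_iff_not_dvd]
    intro hd
    have := Nat.le_of_dvd (by omega) hd
    omega
  have h2 : ‖(((2 * k + 1).choose i : ℕ) : ℚ_[p])‖ ≤ 1 := by
    have := Padic.norm_int_le_one (p := p) ((2 * k + 1).choose i : ℤ)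
    simpa using this
  rw [norm_div, h1, div_one, norm_mul, norm_mul, norm_pow, Padic.norm_p]
  have h3 : (p : ℝ) ^ (-(2 : ℕ) : ℤ) = ((p : ℝ)⁻¹) ^ 2 := by
    rw [zpow_neg, zpow_natCast, inv_pow]
  rw [h3]
  have hinv : (p : ℝ)⁻¹ ≤ 1 := inv_le_one_of_one_le₀ hp1.le
  have hinv0 : 0 < (p : ℝ)⁻¹ := by positivity
  rcases Nat.lt_or_ge i (2 * k) with hlt | hge
  · have h4 := norm_bern_le (p := p) (i := i) (by omega) (by omega)
    have h5 : ((p : ℝ)⁻¹) ^ (2 * k + 1 - i) ≤ ((p : ℝ)⁻¹) ^ 2 :=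
      pow_le_pow_of_le_one hinv0.le hinv (by omega)
    calc _ ≤ 1 * 1 * ((p : ℝ)⁻¹) ^ 2 := by gcongr
      _ = _ := by ring
  · have hi2 : i = 2 * k := by omega
    subst hi2
    have h4 := norm_bern_le' (p := p) (i := 2 * k) (by omega) (by omega) hB
    have h6 : 2 * k + 1 - 2 * k = 1 := by omega
    rw [h6, pow_one]
    calc _ ≤ (p : ℝ)⁻¹ * 1 * (p : ℝ)⁻¹ := by gcongr
      _ = _ := by ring

end Pool.Agent.Q250.RP
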