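import Mathlib
import Pool.Agent.Q250.RP.Pow

/-!
# The sums `∑ a ω(a) ^ l` over the residues `a` modulo `p`, in the `p`-adic integers
-/

set_option autoImplicit false

open Finset

namespace Pool.Agent.Q250.RP

variable {p : ℕ} [hp : Fact p.Prime]

theorem dvd_iff_toZMod (x : ℤ_[p]) : (p : ℤ_[p]) ∣ x ↔ PadicInt.toZMod x = 0 := by
  rw [← RingHom.mem_ker, PadicInt.ker_toZMod, PadicInt.maximalIdeal_eq_span_p,
    Ideal.mem_span_singleton]

theorem norm_eq_one_of (x : ℤ_[p]) (h : PadicInt.toZMod x ≠ 0) : ‖x‖ = 1 := by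
  have h1 := PadicInt.norm_le_one x
  rcases h1.lt_or_eq with h2 | h2
  · exfalso
    apply h
    rw [← dvd_iff_toZMod]
    rwa [PadicInt.norm_lt_one_iff_dvd] at h2
  · exact h2

theorem isUnit_of (x : ℤ_[p]) (h : PadicInt.toZMod x ≠ 0) : IsUnit x :=
  PadicInt.isUnit_iff.2 (norm_eq_one_of x h)

theorem exists_theta (g : ZMod p) (hg : g ≠ 0) :
    ∃ θ : ℤ_[p], θ ^ (p - 1) = 1 ∧ PadicInt.toZMod θ = g := by
  have hp1 := hp.out.one_lt
  set a : ℤ_[p] := ((g.val : ℕ) : ℤ_[p]) with ha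
  have haz : PadicInt.toZMod a = g := by
    rw [ha, map_natCast, ZMod.natCast_zmod_val]
  set F : Polynomial ℤ := Polynomial.X ^ (p - 1) - 1 with hF
  have hFa : ∀ z : ℤ_[p], F.aeval z = z ^ (p - 1) - 1 := by
    intro z
    simp [hF]
  have hF'a : ∀ z : ℤ_[p], F.derivative.aeval z = ((p - 1 : ℕ) : ℤ_[p]) * z ^ (p - 1 - 1) := by
    intro z
    simp [hF, Polynomial.derivative_X_pow]
  have hd : ‖F.derivative.aeval a‖ = 1 := by
    apply norm_eq_one_of
    rw [hF'a, map_mul, map_pow, haz, map_natCast]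
    refine mul_ne_zero ?_ (pow_ne_zero _ hg)
    rw [Ne, ZMod.natCast_eq_zero_iff]
    intro h
    have := Nat.le_of_dvd (by omega) h
    omega
  have hn : ‖F.aeval a‖ < ‖F.derivative.aeval a‖ ^ 2 := by
    rw [hd, one_pow, PadicInt.norm_lt_one_iff_dvd, dvd_iff_toZMod, hFa, map_sub, map_pow, haz,
      map_one, ZMod.pow_card_sub_one_eq_one hg, sub_self]
  obtain ⟨z, hz1, hz2, -, -⟩ := hensels_lemma hn
  refine ⟨z, ?_, ?_⟩
  · rw [hFa] at hz1
    exact sub_eq_zero.1 hz1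
  · rw [hd, PadicInt.norm_lt_one_iff_dvd, dvd_iff_toZMod, map_sub, haz] at hz2
    exact sub_eq_zero.1 hz2

/-- `∑ (g ^ i mod p) X ^ i` -/
noncomputable def PP (p : ℕ) (g : ZMod p) : Polynomial ℤ :=
  ∑ i ∈ range (p - 1), Polynomial.C (((g ^ i).val : ℕ) : ℤ) * Polynomial.X ^ i

theorem PP_eval {R : Type*} [CommRing R] (g : ZMod p) (μ : R) :
    ((PP p g).map (Int.castRingHom R)).eval μ =
      ∑ i ∈ range (p - 1), (((g ^ i).val : ℕ) : R) * μ ^ i := by
  unfold PP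
  rw [Polynomial.map_sum, Polynomial.eval_finsetSum]
  refine Finset.sum_congr rfl fun i _ => ?_
  rw [Polynomial.map_mul, Polynomial.map_C, Polynomial.map_pow, Polynomial.map_X,
    Polynomial.eval_mul, Polynomial.eval_C, Polynomial.eval_pow, Polynomial.eval_X, eq_intCast,
    Int.cast_natCast]

/-- the carries -/
def qq (g : ZMod p) (i : ℕ) : ℕ := (g.val * (g ^ i).val) / p

theorem val_succ (g : ZMod p) (i : ℕ) :
    g.val * (g ^ i).val = p * qq g i + (g ^ (i + 1)).val := by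
  have h : (g ^ (i + 1)).val = (g.val * (g ^ i).val) % p := by
    rw [pow_succ', ZMod.val_mul]
  rw [h]
  exact (Nat.div_add_mod _ _).symm

theorem shift {M : Type*} [AddCommGroup M] (n : ℕ) (f : ℕ → M) (h : f n = f 0) :
    ∑ i ∈ range n, f (i + 1) = ∑ i ∈ range n, f i := by
  have h1 := Finset.sum_range_succ' f n
  have h2 := Finset.sum_range_succ f n
  rw [h2, h] at h1
  exact (add_right_cancel h1).symm

theorem key (g : ZMod p) (hg : g ≠ 0) {R : Type*} [CommRing R] (μ : R) (hμ : μ ^ (p - 1) = 1) :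
    (((g.val : ℕ) : R) * μ - 1) * ∑ i ∈ range (p - 1), (((g ^ i).val : ℕ) : R) * μ ^ i =
      (p : R) * (μ * ∑ i ∈ range (p - 1), ((qq g i : ℕ) : R) * μ ^ i) := by
  have h1 := shift (p - 1) (fun i => (((g ^ i).val : ℕ) : R) * μ ^ i) (by
    simp only [ZMod.pow_card_sub_one_eq_one hg, pow_zero, hμ])
  have h2 : ∑ i ∈ range (p - 1), (((g ^ (i + 1)).val : ℕ) : R) * μ ^ (i + 1) =
      ((g.val : ℕ) : R) * μ * ∑ i ∈ range (p - 1), (((g ^ i).val : ℕ) : R) * μ ^ i -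
      (p : R) * (μ * ∑ i ∈ range (p - 1), ((qq g i : ℕ) : R) * μ ^ i) := by
    rw [Finset.mul_sum, Finset.mul_sum, Finset.mul_sum, ← Finset.sum_sub_distrib]
    refine Finset.sum_congr rfl fun i _ => ?_
    have h3 := congrArg (fun n : ℕ => (n : R)) (val_succ g i)
    push_cast at h3
    have h4 : (((g ^ (i + 1)).val : ℕ) : R) = ((g.val : ℕ) : R) * (((g ^ i).val : ℕ) : R) -
        (p : R) * ((qq g i : ℕ) : R) := by rw [h3]; ring
    rw [h4]
    ring
  rw [h2] at h1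
  linear_combination h1

/-- `∑ a ω(a) ^ l` is divisible by `p` unless `ω ^ (l + 1)` is trivial -/
theorem dvd_S (g : ZMod p) (hg : g ≠ 0) (θ : ℤ_[p]) (h1 : θ ^ (p - 1) = 1)
    (h2 : PadicInt.toZMod θ = g) (l : ℕ) (hl : g ^ (l + 1) ≠ 1) :
    (p : ℤ_[p]) ∣ ∑ i ∈ range (p - 1), (((g ^ i).val : ℕ) : ℤ_[p]) * (θ ^ l) ^ i ∧
    (∑ i ∈ range (p - 1), ((qq g i : ℕ) : ZMod p) * (g ^ l) ^ i = 0 →
      (p : ℤ_[p]) ^ 2 ∣ ∑ i ∈ range (p - 1), (((g ^ i).val : ℕ) : ℤ_[p]) * (θ ^ l) ^ i) := by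
  have hk := key g hg (θ ^ l) (by rw [← pow_mul, mul_comm, pow_mul, h1, one_pow])
  have hu : IsUnit (((g.val : ℕ) : ℤ_[p]) * θ ^ l - 1) := by
    apply isUnit_of
    rw [map_sub, map_mul, map_pow, h2, map_natCast, map_one, ZMod.natCast_zmod_val, ← pow_succ']
    exact sub_ne_zero.2 hl
  constructor
  · rw [← hu.dvd_mul_left, hk]
    exact dvd_mul_right _ _
  · intro h0
    rw [← hu.dvd_mul_left, hk, sq]
    refine mul_dvd_mul_left _ (dvd_mul_of_dvd_right ?_ _)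
    rw [dvd_iff_toZMod, map_sum, ← h0]
    refine Finset.sum_congr rfl fun i _ => ?_
    rw [map_mul, map_natCast, map_pow, map_pow, h2]

theorem sum_all (g : ZMod p) (hg : orderOf g = p - 1) {M : Type*} [AddCommMonoid M] (f : ℕ → M)
    (hf : f 0 = 0) :
    ∑ a ∈ range p, f a = ∑ i ∈ range (p - 1), f (g ^ i).val := by
  classical
  have hp1 := hp.out.one_lt
  have hg0 : g ≠ 0 := by
    rintro rfl
    have h1 : orderOf (0 : ZMod p) = 0 := by
      rw [orderOf_eq_zero_iff']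
      intro n hn
      rw [zero_pow (by omega)]
      exact zero_ne_one
    omega
  have himg : (range (p - 1)).image (fun i => (g ^ i).val) = (range p).erase 0 := by
    apply Finset.eq_of_subset_of_card_le
    · intro x hx
      obtain ⟨i, hi, rfl⟩ := Finset.mem_image.1 hx
      rw [Finset.mem_erase, Finset.mem_range]
      refine ⟨?_, ZMod.val_lt _⟩
      rw [Ne, ZMod.val_eq_zero]
      exact pow_ne_zero _ hg0
    · rw [Finset.card_erase_of_mem (by simp [hp.out.pos]), Finset.card_range,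
        Finset.card_image_of_injOn, Finset.card_range]
      intro i hi j hj hij
      simp only [Finset.coe_range, Set.mem_Iio] at hi hj
      have h1 : g ^ i = g ^ j := ZMod.val_injective p hij
      rw [← hg] at hi hj
      exact pow_injOn_Iio_orderOf hi hj h1
  have h1 : ∑ a ∈ range p, f a = ∑ a ∈ (range p).erase 0, f a := by
    rw [Finset.sum_erase _ hf]
  rw [h1, ← himg, Finset.sum_image]
  intro i hi j hj hij
  simp only [Finset.coe_range, Set.mem_Iio] at hi hj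
  have h1 : g ^ i = g ^ j := ZMod.val_injective p hij
  rw [← hg] at hi hj
  exact pow_injOn_Iio_orderOf hi hj h1

theorem carries_zero (g : ZMod p) (hg : orderOf g = p - 1) (k : ℕ) (hk : 1 ≤ k) (hkp : 2 * k + 3 ≤ p)
    (hB : (p : ℤ) ∣ (bernoulli (2 * k)).num) :
    ∑ i ∈ range (p - 1), ((qq g i : ℕ) : ZMod p) * (g ^ (2 * k - 1)) ^ i = 0 := by
  have hg0 : g ≠ 0 := by
    rintro rfl
    have h1 : orderOf (0 : ZMod p) = 0 := by
      rw [orderOf_eq_zero_iff']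
      intro n hn
      rw [zero_pow (by omega)]
      exact zero_ne_one
    omega
  have h1 := sq_dvd_power_sum hk hkp hB
  rw [sum_all g hg (fun a => (a : ℤ) ^ (2 * k)) (by simp; omega)] at h1
  have h2 := shift (p - 1) (fun i => (((g ^ i).val : ℕ) : ℤ) ^ (2 * k)) (by
    simp only [ZMod.pow_card_sub_one_eq_one hg0, pow_zero])
  set σ := ∑ i ∈ range (p - 1), (((g ^ i).val : ℕ) : ℤ) ^ (2 * k) with hσ
  have h3 : ∀ i : ℕ, ∃ K : ℤ, (((g ^ (i + 1)).val : ℕ) : ℤ) ^ (2 * k) =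
      ((g.val : ℕ) : ℤ) ^ (2 * k) * (((g ^ i).val : ℕ) : ℤ) ^ (2 * k) -
      (p : ℤ) * ((2 * k : ℕ) * (((g.val : ℕ) : ℤ) ^ (2 * k - 1) *
        ((qq g i : ℕ) * (((g ^ i).val : ℕ) : ℤ) ^ (2 * k - 1)))) + K * (p : ℤ) ^ 2 := by
    intro i
    have h4 := congrArg (fun n : ℕ => (n : ℤ)) (val_succ g i)
    push_cast at h4
    have h5 : (((g ^ (i + 1)).val : ℕ) : ℤ) = ((g.val : ℕ) : ℤ) * (((g ^ i).val : ℕ) : ℤ) +
        (-(p : ℤ) * ((qq g i : ℕ) : ℤ)) := by rw [h4]; ring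
    obtain ⟨K, hK⟩ := Polynomial.powAddExpansion (((g.val : ℕ) : ℤ) * (((g ^ i).val : ℕ) : ℤ))
      (-(p : ℤ) * ((qq g i : ℕ) : ℤ)) (2 * k)
    refine ⟨K * ((qq g i : ℕ) : ℤ) ^ 2, ?_⟩
    rw [h5, hK, mul_pow, mul_pow]
    push_cast
    ring
  choose K hK using h3
  rw [Finset.sum_congr rfl fun i _ => hK i, Finset.sum_add_distrib, Finset.sum_sub_distrib,
    ← Finset.mul_sum, ← Finset.mul_sum, ← Finset.mul_sum, ← Finset.mul_sum, ← Finset.sum_mul] at h2
  set V := ∑ i ∈ range (p - 1), ((qq g i : ℕ) : ℤ) * (((g ^ i).val : ℕ) : ℤ) ^ (2 * k - 1) with hV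
  have h6 : (p : ℤ) ^ 2 ∣ (p : ℤ) * ((2 * k : ℕ) * (((g.val : ℕ) : ℤ) ^ (2 * k - 1) * V)) := by
    obtain ⟨s, hs⟩ := h1
    refine ⟨((g.val : ℕ) : ℤ) ^ (2 * k) * s - s + ∑ i ∈ range (p - 1), K i, ?_⟩
    rw [← hσ] at h2
    rw [hs] at h2
    linear_combination (-1 : ℤ) * h2
  rw [sq] at h6
  have hp0 : (p : ℤ) ≠ 0 := by exact_mod_cast hp.out.ne_zero
  have h7 := (mul_dvd_mul_iff_left hp0).1 h6
  have h8 := (ZMod.intCast_zmod_eq_zero_iff_dvd _ p).2 h7
  rw [hV] at h8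
  push_cast at h8
  have hk0 : ((2 * k : ℕ) : ZMod p) ≠ 0 := Pool.Agent.H332R2.nat_ne_zero (by omega) (by omega)
  push_cast at hk0
  rw [ZMod.natCast_zmod_val] at h8
  have h9 := (mul_eq_zero.1 ((mul_eq_zero.1 h8).resolve_left hk0)).resolve_left
    (pow_ne_zero _ hg0)
  rw [← h9]
  refine Finset.sum_congr rfl fun i _ => ?_
  rw [ZMod.natCast_zmod_val]
  ring

end Pool.Agent.Q250.RP
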