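import Mathlib
import Pool.Agent.Q250.RP.Teich
import Pool.Agent.Q250.RP.Res

/-!
# The `p`-part of the norm of `∑ a χ(a)`
-/

set_option autoImplicit false

open Finset

namespace Pool.Agent.Q250.RP

variable {p : ℕ} [hp : Fact p.Prime]

/-- the residues prime to `m` -/
def JJ (m : ℕ) : Finset ℕ := (range m).filter (fun j => m.Coprime j)

theorem card_JJ (m : ℕ) : (JJ m).card = m.totient := (Nat.totient_eq_card_coprime m).symm

theorem primitiveRoots_eq {R : Type*} [CommRing R] [IsDomain R] [DecidableEq R] {m : ℕ} (hm : 0 < m)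
    {ζ : R} (hζ : IsPrimitiveRoot ζ m) : primitiveRoots m R = (JJ m).image (fun j => ζ ^ j) := by
  ext x
  have : NeZero m := ⟨hm.ne'⟩
  rw [mem_primitiveRoots hm, hζ.isPrimitiveRoot_iff, Finset.mem_image]
  constructor
  · rintro ⟨i, hi, hc, rfl⟩
    exact ⟨i, Finset.mem_filter.2 ⟨Finset.mem_range.2 hi, hc.symm⟩, rfl⟩
  · rintro ⟨i, hi, rfl⟩
    rw [JJ, Finset.mem_filter, Finset.mem_range] at hi
    exact ⟨i, hi.1, hi.2.symm, rfl⟩

theorem prod_primitiveRoots {R : Type*} [CommRing R] [IsDomain R] {m : ℕ} (hm : 0 < m)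
    {ζ : R} (hζ : IsPrimitiveRoot ζ m) (f : R → R) :
    ∏ μ ∈ primitiveRoots m R, f μ = ∏ j ∈ JJ m, f (ζ ^ j) := by
  classical
  rw [primitiveRoots_eq hm hζ, Finset.prod_image]
  intro i hi j hj hij
  have hi' := Finset.mem_range.1 (Finset.mem_filter.1 hi).1
  have hj' := Finset.mem_range.1 (Finset.mem_filter.1 hj).1
  exact hζ.pow_inj hi' hj' hij

/-- the exponents -/
noncomputable def ee (p d j : ℕ) : ℕ :=
  if d * j + 1 = p - 1 then 0 else if (p : ℤ) ∣ (bernoulli (d * j + 1)).num then 2 else 1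

/-- the irregular indices with `gcd (2k - 1, p - 1) = d` -/
noncomputable def irr (p d : ℕ) : Finset ℕ :=
  (Icc 1 ((p - 3) / 2)).filter
    (fun k => Nat.gcd (2 * k - 1) (p - 1) = d ∧ (p : ℤ) ∣ (bernoulli (2 * k)).num)

theorem sum_ee (hp5 : 5 ≤ p) (d m : ℕ) (hdm : d * m = p - 1) (hd : Odd d) :
    m.totient + (irr p d).card ≤ ∑ j ∈ JJ m, ee p d j + (if d = 1 then 1 else 0) := by
  classical
  have hd0 : 0 < d := hd.pos
  have hm0 : 0 < m := by
    rcases Nat.eq_zero_or_pos m with h | h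
    · subst h; omega
    · exact h
  have h1 : ∀ j ∈ JJ m, 1 + (if d * j + 1 ≠ p - 1 ∧ (p : ℤ) ∣ (bernoulli (d * j + 1)).num then 1 else 0)
      ≤ ee p d j + (if d * j + 1 = p - 1 then 1 else 0) := by
    intro j _
    unfold ee
    by_cases hs : d * j + 1 = p - 1
    · simp [hs]
    · by_cases hi : (p : ℤ) ∣ (bernoulli (d * j + 1)).num
      · simp [hs, hi]
      · simp [hs, hi]
  have h2 := Finset.sum_le_sum h1
  rw [Finset.sum_add_distrib, Finset.sum_add_distrib, Finset.sum_const, card_JJ, smul_eq_mul,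
    mul_one, ← Finset.card_filter, ← Finset.card_filter] at h2
  have h3 : ((JJ m).filter (fun j => d * j + 1 = p - 1)).card ≤ if d = 1 then 1 else 0 := by
    split_ifs with hd1
    · rw [Finset.card_le_one]
      intro a ha b hb
      have ha' := (Finset.mem_filter.1 ha).2
      have hb' := (Finset.mem_filter.1 hb).2
      subst hd1
      omega
    · rw [Nat.le_zero, Finset.card_eq_zero, Finset.filter_eq_empty_iff]
      intro j hj hs
      apply hd1
      have h4 : d ∣ d * j + 1 := by rw [hs, ← hdm]; exact dvd_mul_right _ _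
      have h5 : d ∣ 1 := (Nat.dvd_add_right (dvd_mul_right d j)).1 h4
      exact Nat.dvd_one.1 h5
  have h4 : (irr p d).card ≤ ((JJ m).filter (fun j => d * j + 1 ≠ p - 1 ∧
      (p : ℤ) ∣ (bernoulli (d * j + 1)).num)).card := by
    apply Finset.card_le_card_of_injOn (fun k => (2 * k - 1) / d)
    · intro k hk
      rw [irr] at hk
      have hk1 := Finset.mem_filter.1 (Finset.mem_coe.1 hk)
      have hk2 := Finset.mem_Icc.1 hk1.1
      obtain ⟨j, hj⟩ : d ∣ 2 * k - 1 := hk1.2.1 ▸ Nat.gcd_dvd_left _ _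
      have hj1 : (2 * k - 1) / d = j := by rw [hj]; exact Nat.mul_div_cancel_left _ hd0
      have hj2 : d * j + 1 = 2 * k := by omega
      simp only [hj1]
      rw [Finset.mem_coe, Finset.mem_filter, JJ, Finset.mem_filter, Finset.mem_range, hj2]
      refine ⟨⟨?_, ?_⟩, by omega, hk1.2.2⟩
      · have : d * j < d * m := by omega
        exact Nat.lt_of_mul_lt_mul_left this
      · have h5 := hk1.2.1
        rw [hj, ← hdm, Nat.gcd_mul_left] at h5
        have h6 : Nat.gcd j m = 1 := by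
          have : d * Nat.gcd j m = d * 1 := by rw [h5, mul_one]
          exact Nat.eq_of_mul_eq_mul_left hd0 this
        exact Nat.Coprime.symm h6
    · intro a ha b hb hab
      have ha1 := Finset.mem_filter.1 (Finset.mem_coe.1 ha)
      have hb1 := Finset.mem_filter.1 (Finset.mem_coe.1 hb)
      have ha2 := Finset.mem_Icc.1 ha1.1
      have hb2 := Finset.mem_Icc.1 hb1.1
      have ha3 : d ∣ 2 * a - 1 := ha1.2.1 ▸ Nat.gcd_dvd_left _ _
      have hb3 : d ∣ 2 * b - 1 := hb1.2.1 ▸ Nat.gcd_dvd_left _ _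
      simp only at hab
      have h5 : 2 * a - 1 = 2 * b - 1 := by
        rw [← Nat.div_mul_cancel ha3, ← Nat.div_mul_cancel hb3, hab]
      omega
  omega

theorem exists_gen (p : ℕ) [hp : Fact p.Prime] : ∃ g : ZMod p, orderOf g = p - 1 := by
  obtain ⟨u, hu⟩ := IsCyclic.exists_generator (α := (ZMod p)ˣ)
  refine ⟨u, ?_⟩
  rw [orderOf_units, orderOf_eq_card_of_forall_mem_zpowers hu, Nat.card_eq_fintype_card,
    ZMod.card_units]

theorem gen_ne (hp3 : 3 ≤ p) {g : ZMod p} (hg : orderOf g = p - 1) : g ≠ 0 := by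
  rintro rfl
  have h1 : orderOf (0 : ZMod p) = 0 := by
    rw [orderOf_eq_zero_iff']
    intro n hn
    rw [zero_pow (by omega)]
    exact zero_ne_one
  omega

theorem pow_dvd_res (hp5 : 5 ≤ p) (g : ZMod p) (hg : orderOf g = p - 1) (d m : ℕ)
    (hdm : d * m = p - 1) (hd : Odd d) :
    (p : ℤ) ^ (∑ j ∈ JJ m, ee p d j) ∣ resC m (PP p g) := by
  have hd0 : 0 < d := hd.pos
  have hm0 : 0 < m := by
    rcases Nat.eq_zero_or_pos m with h | h
    · subst h; omega
    · exact h
  have hg0 := gen_ne (by omega) hg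
  obtain ⟨θ, hθ1, hθ2⟩ := exists_theta g hg0
  have hprim : IsPrimitiveRoot θ (p - 1) := by
    rw [IsPrimitiveRoot.iff_def]
    refine ⟨hθ1, fun l hl => ?_⟩
    rw [← hg]
    apply orderOf_dvd_of_pow_eq_one
    rw [← hθ2, ← map_pow, hl, map_one]
  have hζ : IsPrimitiveRoot (θ ^ d) m := hprim.pow (by omega) hdm.symm
  rw [← PadicInt.pow_p_dvd_int_iff, resC_cast m hζ, prod_primitiveRoots hm0 hζ
    (fun μ => ((PP p g).map (Int.castRingHom ℤ_[p])).eval μ), ← Finset.prod_pow_eq_pow_sum]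
  apply Finset.prod_dvd_prod_of_dvd
  intro j hj
  rw [JJ, Finset.mem_filter, Finset.mem_range] at hj
  rw [PP_eval, ← pow_mul]
  have hpodd : Odd p := hp.out.odd_of_ne_two (by omega)
  have hpe : Even (p - 1) := by
    obtain ⟨t, ht⟩ := hpodd
    exact ⟨t, by omega⟩
  have hme : Even m := by
    rw [← hdm, Nat.even_mul] at hpe
    rcases hpe with h | h
    · exact absurd h (Nat.not_even_iff_odd.2 hd)
    · exact h
  have hjo : Odd j := by
    rw [← Nat.not_even_iff_odd]
    intro hje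
    have h2 : 2 ∣ Nat.gcd m j := Nat.dvd_gcd hme.two_dvd hje.two_dvd
    rw [hj.2] at h2
    omega
  have hj1 : 1 ≤ j := hjo.pos
  have hle : d * j + 1 ≤ p - 1 := by
    have h1 : d * (j + 1) ≤ d * m := Nat.mul_le_mul_left d hj.1
    rw [hdm] at h1
    have h2 : d * (j + 1) = d * j + d := by ring
    omega
  obtain ⟨s, hs⟩ := hd.mul hjo
  unfold ee
  by_cases hsp : d * j + 1 = p - 1
  · rw [if_pos hsp, pow_zero]
    exact one_dvd _
  · rw [if_neg hsp]
    have hne : g ^ (d * j + 1) ≠ 1 := by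
      intro h
      have := orderOf_dvd_of_pow_eq_one h
      rw [hg] at this
      have := Nat.le_of_dvd (by omega) this
      omega
    have hS := dvd_S g hg0 θ hθ1 hθ2 (d * j) hne
    split_ifs with hB
    · apply hS.2
      have h2k : d * j + 1 = 2 * (s + 1) := by omega
      rw [h2k] at hB
      have hc := carries_zero g hg (s + 1) (by omega) (by
        obtain ⟨t, ht⟩ := hpe
        omega) hB
      have h3 : 2 * (s + 1) - 1 = d * j := by omega
      rw [h3] at hc
      exact hc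
    · rw [pow_one]
      exact hS.1

end Pool.Agent.Q250.RP
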