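import Mathlib
import Pool.Agent.Q250.RP.Orb
import Pool.Agent.H343R2.PV
import Pool.Agent.H916R2.OddChar

/-!
# The complex absolute values of `∑ a χ(a)`
-/

set_option autoImplicit false

open Finset

namespace Pool.Agent.Q250.RP

variable {p : ℕ} [hp : Fact p.Prime]

/-- the value of the polynomial `PP` at a complex number -/
noncomputable def SC (g : ZMod p) (ξ : ℂ) : ℂ := ∑ i ∈ range (p - 1), (((g ^ i).val : ℕ) : ℂ) * ξ ^ i

theorem exists_char (u : (ZMod p)ˣ) (hu : ∀ x : (ZMod p)ˣ, x ∈ Subgroup.zpowers u) (ξ : ℂ)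
    (hξ : ξ ^ (p - 1) = 1) : ∃ χ : DirichletCharacter ℂ p, χ (u : ZMod p) = ξ := by
  have hp1 := hp.out.one_lt
  have hξ0 : ξ ≠ 0 := by
    rintro rfl
    rw [zero_pow (by omega)] at hξ
    exact zero_ne_one hξ
  have hmem : Units.mk0 ξ hξ0 ∈ rootsOfUnity (Fintype.card (ZMod p)ˣ) ℂ := by
    rw [mem_rootsOfUnity, ZMod.card_units]
    ext
    simpa using hξ
  exact ⟨MulChar.ofRootOfUnity hmem hu, by rw [MulChar.ofRootOfUnity_spec]; rfl⟩

theorem geom_zero {ξ : ℂ} (hξ : ξ ^ (p - 1) = 1) (hξ1 : ξ ≠ 1) : ∑ i ∈ range (p - 1), ξ ^ i = 0 := by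
  rw [geom_sum_eq hξ1, hξ, sub_self, zero_div]

theorem abel (f : ℕ → ℂ) (n : ℕ) : ∑ a ∈ range (n + 1), (a : ℂ) * f a =
    (n : ℂ) * ∑ a ∈ range (n + 1), f a - ∑ t ∈ range n, ∑ a ∈ range (t + 1), f a := by
  induction n with
  | zero => simp
  | succ n ih =>
    rw [Finset.sum_range_succ, ih, Finset.sum_range_succ (fun a => f a) (n + 1),
      Finset.sum_range_succ (fun t => ∑ a ∈ range (t + 1), f a) n]
    push_cast
    ring

theorem primitive_of_ne (χ : DirichletCharacter ℂ p) (h : χ ≠ 1) : χ.IsPrimitive := by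
  rw [DirichletCharacter.isPrimitive_def]
  have h1 := χ.conductor_dvd_level
  rcases (Nat.dvd_prime hp.out).1 h1 with h2 | h2
  · exact absurd (DirichletCharacter.eq_one_iff_conductor_eq_one.2 h2) h
  · exact h2

theorem norm_SC_le (g : ZMod p) (hp3 : 3 ≤ p) (hg : orderOf g = p - 1) (ξ : ℂ) (hξ : ξ ^ (p - 1) = 1)
    (hξ1 : ξ ≠ 1) : ‖SC g ξ‖ ≤ p * (Real.sqrt p * (1 + Real.log p)) := by
  have hg0 := gen_ne hp3 hg
  set u : (ZMod p)ˣ := Units.mk0 g hg0 with hu
  have huo : orderOf u = p - 1 := by rw [← hg, ← orderOf_units]; rfl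
  have hgen : ∀ x : (ZMod p)ˣ, x ∈ Subgroup.zpowers u := by
    intro x
    have hc : Nat.card (Subgroup.zpowers u) = Nat.card (ZMod p)ˣ := by
      rw [Nat.card_zpowers, huo, Nat.card_eq_fintype_card, ZMod.card_units]
    have := (Subgroup.card_eq_iff_eq_top (Subgroup.zpowers u)).1 hc
    rw [this]
    exact Subgroup.mem_top x
  obtain ⟨χ, hχ⟩ := exists_char u hgen ξ hξ
  have hχg : χ g = ξ := hχ
  have hχ1 : χ ≠ 1 := by
    rintro rfl
    apply hξ1
    rw [← hχ, MulChar.one_apply u.isUnit]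
  have hprim := primitive_of_ne χ hχ1
  have hval : ∀ i : ℕ, χ (((g ^ i).val : ℕ) : ZMod p) = ξ ^ i := by
    intro i
    rw [ZMod.natCast_zmod_val, map_pow, hχg]
  have hχ0 : χ ((0 : ℕ) : ZMod p) = 0 := by
    rw [Nat.cast_zero]
    exact MulChar.map_nonunit _ (by simp)
  have h1 : SC g ξ = ∑ a ∈ range p, (a : ℂ) * χ (a : ZMod p) := by
    rw [sum_all g hg (fun a => (a : ℂ) * χ (a : ZMod p)) (by simp)]
    unfold SC
    refine Finset.sum_congr rfl fun i _ => ?_
    rw [hval]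
  have h2 : ∑ a ∈ range p, χ (a : ZMod p) = 0 := by
    rw [sum_all g hg (fun a => χ (a : ZMod p)) hχ0]
    rw [Finset.sum_congr rfl fun i _ => hval i]
    exact geom_zero hξ hξ1
  obtain ⟨n, hn⟩ : ∃ n, p = n + 1 := ⟨p - 1, by omega⟩
  have h3 := abel (fun a => χ (a : ZMod p)) n
  rw [← hn] at h3
  rw [h1, h3, h2, mul_zero, zero_sub, norm_neg]
  have h4 : ∀ t ∈ range n, ‖∑ a ∈ range (t + 1), χ (a : ZMod p)‖ ≤ Real.sqrt p * (1 + Real.log p) := by
    intro t _
    have h5 : ∑ a ∈ range (t + 1), χ (a : ZMod p) = ∑ a ∈ Icc 1 t, χ (a : ZMod p) := by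
      rw [Finset.sum_range_succ', hχ0, add_zero]
      rw [Finset.range_eq_Ico, Finset.sum_Ico_add' (fun a => χ ((a : ℕ) : ZMod p)) 0 t 1]
      rfl
    rw [h5]
    exact H343.PVaux.PV_plain p t (by omega) χ hprim
  have hlog : 0 ≤ Real.log p := Real.log_natCast_nonneg p
  calc ‖∑ t ∈ range n, ∑ a ∈ range (t + 1), χ (a : ZMod p)‖
      ≤ ∑ t ∈ range n, ‖∑ a ∈ range (t + 1), χ (a : ZMod p)‖ := norm_sum_le _ _
    _ ≤ ∑ _t ∈ range n, Real.sqrt p * (1 + Real.log p) := Finset.sum_le_sum h4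
    _ = n * (Real.sqrt p * (1 + Real.log p)) := by rw [Finset.sum_const, Finset.card_range, nsmul_eq_mul]
    _ ≤ p * (Real.sqrt p * (1 + Real.log p)) := by
      apply mul_le_mul_of_nonneg_right _ (by positivity)
      have : n ≤ p := by omega
      exact_mod_cast this

theorem shift_many {M : Type*} [AddCommGroup M] (n : ℕ) (f : ℕ → M) (h : ∀ i, f (i + n) = f i) (s : ℕ) :
    ∑ i ∈ range n, f (i + s) = ∑ i ∈ range n, f i := by
  induction s with
  | zero => simp
  | succ s ih =>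
    rw [← ih]
    have := shift n (fun i => f (i + s)) (by
      show f (n + s) = f (0 + s)
      rw [add_comm n s, h, zero_add])
    rw [← this]
    refine Finset.sum_congr rfl fun i _ => ?_
    show f (i + (s + 1)) = f (i + 1 + s)
    congr 1
    ring

theorem SC_ne_zero (g : ZMod p) (hp3 : 3 ≤ p) (hg : orderOf g = p - 1) (ξ : ℂ) (hξ : ξ ^ (p - 1) = 1)
    (hodd : ξ ^ ((p - 1) / 2) = -1) : SC g ξ ≠ 0 := by
  have hg0 := gen_ne hp3 hg
  have hξ1 : ξ ≠ 1 := by
    rintro rfl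
    rw [one_pow] at hodd
    norm_num at hodd
  have hξ0 : ξ ≠ 0 := by
    rintro rfl
    rw [zero_pow (by omega)] at hξ
    exact zero_ne_one hξ
  set u : (ZMod p)ˣ := Units.mk0 g hg0 with hu
  have huo : orderOf u = p - 1 := by rw [← hg, ← orderOf_units]; rfl
  have hgen : ∀ x : (ZMod p)ˣ, x ∈ Subgroup.zpowers u := by
    intro x
    have hc : Nat.card (Subgroup.zpowers u) = Nat.card (ZMod p)ˣ := by
      rw [Nat.card_zpowers, huo, Nat.card_eq_fintype_card, ZMod.card_units]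
    have := (Subgroup.card_eq_iff_eq_top (Subgroup.zpowers u)).1 hc
    rw [this]
    exact Subgroup.mem_top x
  obtain ⟨χ, hχ⟩ := exists_char u hgen ξ hξ
  have hχg : χ g = ξ := hχ
  have hp2 : p ≠ 2 := by omega
  have hpe : 2 * ((p - 1) / 2) = p - 1 := by
    obtain ⟨t, ht⟩ := hp.out.odd_of_ne_two hp2
    omega
  have hneg : g ^ ((p - 1) / 2) = -1 := by
    have h1 : (g ^ ((p - 1) / 2)) ^ 2 = 1 := by
      rw [← pow_mul, mul_comm, hpe, ZMod.pow_card_sub_one_eq_one hg0]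
    rcases sq_eq_one_iff.1 h1 with h2 | h2
    · exfalso
      have h3 := orderOf_dvd_of_pow_eq_one h2
      rw [hg] at h3
      have := Nat.le_of_dvd (by omega) h3
      omega
    · exact h2
  have hχodd : χ.Odd := by
    unfold DirichletCharacter.Odd
    rw [← hneg, map_pow, hχg, hodd]
  obtain ⟨a, ha⟩ := Pool.Agent.H916R2.exists_SS_ne_zero χ hχodd
  intro h0
  apply ha
  unfold Pool.Agent.H916R2.SS
  by_cases ha0 : a = 0
  · subst ha0
    simp [Pool.Agent.H916R2.saw_zero]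
  · obtain ⟨s, hs⟩ := Subgroup.mem_zpowers_iff.1 (hgen (Units.mk0 a ha0))
    obtain ⟨s', hs'⟩ : ∃ s' : ℕ, a = g ^ s' := by
      have h1 : Units.mk0 a ha0 ∈ (range (orderOf u)).image (fun i => u ^ i) := by
        rw [IsCyclic.image_range_orderOf hgen]
        exact Finset.mem_univ _
      obtain ⟨i, -, hi⟩ := Finset.mem_image.1 h1
      refine ⟨i, ?_⟩
      have := congrArg (fun x : (ZMod p)ˣ => (x : ZMod p)) hi
      simp only [Units.val_pow_eq_pow_val, Units.val_mk0] at this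
      exact this.symm
    subst hs'
    have h2 : ∑ t : (ZMod p)ˣ, χ t * ((Pool.Agent.H916R2.saw ((t : ZMod p) * g ^ s') : ℤ) : ℂ) =
        ∑ i ∈ range (p - 1), ξ ^ i * ((Pool.Agent.H916R2.saw (g ^ (i + s')) : ℤ) : ℂ) := by
      rw [← IsCyclic.image_range_orderOf hgen, Finset.sum_image, huo]
      · refine Finset.sum_congr rfl fun i _ => ?_
        have h3 : ((u ^ i : (ZMod p)ˣ) : ZMod p) = g ^ i := by simp [hu]
        rw [h3, map_pow, hχg, ← pow_add]
      · intro i hi j hj hij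
        simp only [Finset.coe_range, Set.mem_Iio] at hi hj
        exact pow_injOn_Iio_orderOf hi hj hij
    rw [h2]
    have h4 : ξ ^ s' * ∑ i ∈ range (p - 1), ξ ^ i * ((Pool.Agent.H916R2.saw (g ^ (i + s')) : ℤ) : ℂ) = 0 := by
      rw [Finset.mul_sum]
      have h5 := shift_many (p - 1)
        (fun i => ξ ^ i * ((Pool.Agent.H916R2.saw (g ^ i) : ℤ) : ℂ)) (by
          intro i
          simp only [pow_add, hξ, ZMod.pow_card_sub_one_eq_one hg0, mul_one]) s'
      rw [show ∑ i ∈ range (p - 1), ξ ^ s' * (ξ ^ i * ((Pool.Agent.H916R2.saw (g ^ (i + s')) : ℤ) : ℂ)) =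
          ∑ i ∈ range (p - 1), ξ ^ (i + s') * ((Pool.Agent.H916R2.saw (g ^ (i + s')) : ℤ) : ℂ) from
        Finset.sum_congr rfl fun i _ => by rw [pow_add]; ring]
      rw [h5]
      have h6 : ∀ i : ℕ, ξ ^ i * ((Pool.Agent.H916R2.saw (g ^ i) : ℤ) : ℂ) =
          2 * ((((g ^ i).val : ℕ) : ℂ) * ξ ^ i) - p * ξ ^ i := by
        intro i
        unfold Pool.Agent.H916R2.saw
        rw [if_neg (pow_ne_zero _ hg0)]
        push_cast
        ring
      rw [Finset.sum_congr rfl fun i _ => h6 i, Finset.sum_sub_distrib, ← Finset.mul_sum,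
        ← Finset.mul_sum, geom_zero hξ hξ1]
      have h7 : ∑ i ∈ range (p - 1), (((g ^ i).val : ℕ) : ℂ) * ξ ^ i = 0 := h0
      rw [h7]
      ring
    exact (mul_eq_zero.1 h4).resolve_left (pow_ne_zero _ hξ0)

end Pool.Agent.Q250.RP
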