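import Mathlib
import Pool.Agent.Q250.RP.Cplx

/-!
# At most about half of the indices of an odd Galois orbit are irregular
-/

set_option autoImplicit false

open Finset

namespace Pool.Agent.Q250.RP

theorem bound (p : ℕ) [hp : Fact p.Prime] (hp5 : 5 ≤ p) (d m : ℕ) (hdm : d * m = p - 1)
    (hd : Odd d) :
    (p : ℝ) ^ (irr p d).card ≤
      (if d = 1 then (p : ℝ) else 1) * (√p * (1 + Real.log p)) ^ m.totient := by
  obtain ⟨g, hg⟩ := exists_gen p
  have hm0 : 0 < m := by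
    rcases Nat.eq_zero_or_pos m with h | h
    · subst h; omega
    · exact h
  have hdvd := pow_dvd_res hp5 g hg d m hdm hd
  have hζ : IsPrimitiveRoot (Complex.exp (2 * Real.pi * Complex.I / m)) m :=
    Complex.isPrimitiveRoot_exp m hm0.ne'
  set ζ := Complex.exp (2 * Real.pi * Complex.I / m) with hζd
  have hR : ((resC m (PP p g) : ℤ) : ℂ) = ∏ j ∈ JJ m, SC g (ζ ^ j) := by
    rw [resC_cast m hζ, prod_primitiveRoots hm0 hζ
      (fun μ => ((PP p g).map (Int.castRingHom ℂ)).eval μ)]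
    refine Finset.prod_congr rfl fun j _ => ?_
    rw [PP_eval]
    rfl
  have hpe : Even (p - 1) := by
    obtain ⟨t, ht⟩ := hp.out.odd_of_ne_two (by omega)
    exact ⟨t, by omega⟩
  have hme : Even m := by
    rw [← hdm, Nat.even_mul] at hpe
    rcases hpe with h | h
    · exact absurd h (Nat.not_even_iff_odd.2 hd)
    · exact h
  have hξ : ∀ j ∈ JJ m, (ζ ^ j) ^ (p - 1) = 1 ∧ (ζ ^ j) ^ ((p - 1) / 2) = -1 ∧ ζ ^ j ≠ 1 := by
    intro j hj
    rw [JJ, Finset.mem_filter, Finset.mem_range] at hj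
    have hpr : IsPrimitiveRoot (ζ ^ j) m := hζ.pow_of_coprime j hj.2.symm
    have h1 : (ζ ^ j) ^ (p - 1) = 1 := by
      rw [← hdm, mul_comm, pow_mul, hpr.pow_eq_one, one_pow]
    have h2 : (ζ ^ j) ^ ((p - 1) / 2) ≠ 1 := by
      intro h
      have h3 := hpr.dvd_of_pow_eq_one _ h
      obtain ⟨t, ht⟩ := hme
      obtain ⟨s, hs⟩ := h3
      have h4 : 2 * ((p - 1) / 2) = p - 1 := Nat.two_mul_div_two_of_even hpe
      rw [hs, ← hdm] at h4
      have h5 : d = 2 * s := by
        have : m * (2 * s) = m * d := by linarith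
        exact (Nat.eq_of_mul_eq_mul_left hm0 this).symm
      exact absurd hd (by rw [h5]; exact Nat.not_odd_iff_even.2 (even_two_mul s))
    have h3 : ((ζ ^ j) ^ ((p - 1) / 2)) ^ 2 = 1 := by
      rw [← pow_mul, mul_comm, Nat.two_mul_div_two_of_even hpe, h1]
    have h4 : (ζ ^ j) ^ ((p - 1) / 2) = -1 := (sq_eq_one_iff.1 h3).resolve_left h2
    refine ⟨h1, h4, ?_⟩
    intro h5
    rw [h5, one_pow] at h4
    norm_num at h4
  have hp0 : (0 : ℝ) < p := by exact_mod_cast hp.out.pos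
  have hp1 : (1 : ℝ) < p := by exact_mod_cast hp.out.one_lt
  have hlog : 0 < Real.log p := Real.log_pos hp1
  have hR0 : resC m (PP p g) ≠ 0 := by
    intro h0
    rw [h0, Int.cast_zero] at hR
    obtain ⟨j, hj, hj0⟩ := Finset.prod_eq_zero_iff.1 hR.symm
    exact SC_ne_zero g (by omega) hg _ (hξ j hj).1 (hξ j hj).2.1 hj0
  have hle : ‖((resC m (PP p g) : ℤ) : ℂ)‖ ≤ (p * (√p * (1 + Real.log p))) ^ m.totient := by
    rw [hR, norm_prod]
    calc ∏ j ∈ JJ m, ‖SC g (ζ ^ j)‖ ≤ ∏ _j ∈ JJ m, (p * (√p * (1 + Real.log p))) :=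
          Finset.prod_le_prod (fun _ _ => norm_nonneg _) fun j hj =>
            norm_SC_le g (by omega) hg _ (hξ j hj).1 (hξ j hj).2.2
      _ = _ := by rw [Finset.prod_const, card_JJ]
  rw [Complex.norm_intCast] at hle
  have h1 : (p : ℝ) ^ (∑ j ∈ JJ m, ee p d j) ≤ |((resC m (PP p g) : ℤ) : ℝ)| := by
    have h2 := Int.le_of_dvd (abs_pos.2 hR0) ((dvd_abs _ _).2 hdvd)
    have h3 : (((p : ℤ) ^ (∑ j ∈ JJ m, ee p d j) : ℤ) : ℝ) ≤ ((|resC m (PP p g)| : ℤ) : ℝ) :=
      Int.cast_le.2 h2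
    rw [Int.cast_abs] at h3
    push_cast at h3
    exact h3
  have h4 := sum_ee hp5 d m hdm hd
  have h5 : (p : ℝ) ^ (m.totient + (irr p d).card) ≤
      (p : ℝ) ^ (∑ j ∈ JJ m, ee p d j + (if d = 1 then 1 else 0)) :=
    pow_le_pow_right₀ hp1.le h4
  rw [pow_add, pow_add] at h5
  have h6 : (p : ℝ) ^ (if d = 1 then 1 else 0) = if d = 1 then (p : ℝ) else 1 := by
    split_ifs <;> simp
  rw [h6] at h5
  have hd0 : (0 : ℝ) < if d = 1 then (p : ℝ) else 1 := by split_ifs <;> positivity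
  have h7 : (p : ℝ) ^ m.totient * (p : ℝ) ^ (irr p d).card ≤ (p : ℝ) ^ m.totient *
      ((if d = 1 then (p : ℝ) else 1) * (√p * (1 + Real.log p)) ^ m.totient) := by
    calc (p : ℝ) ^ m.totient * (p : ℝ) ^ (irr p d).card
        ≤ (p : ℝ) ^ (∑ j ∈ JJ m, ee p d j) * (if d = 1 then (p : ℝ) else 1) := h5
      _ ≤ (p * (√p * (1 + Real.log p))) ^ m.totient * (if d = 1 then (p : ℝ) else 1) :=
          mul_le_mul_of_nonneg_right (h1.trans hle) hd0.le
      _ = _ := by rw [mul_pow]; ring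
  exact le_of_mul_le_mul_left h7 (by positivity)

/-- the number of prime factors (after `Pool.Agent.TH350.VD.two_pow_omega` of the starting files) -/
lemma two_pow_omega : ∃ C : ℝ, 1 ≤ C ∧ ∀ m : ℕ, 1 ≤ m →
    (2 : ℝ) ^ m.primeFactors.card ≤ C * √(m : ℝ) := by
  classical
  refine ⟨2 ^ 4, one_le_pow₀ (by norm_num), fun m hm => ?_⟩
  have h1 : ∀ q ∈ m.primeFactors, (2 : ℝ) ≤ (if q < 4 then 2 else 1) * √(q : ℝ) := by
    intro q hq
    have hqp := Nat.prime_of_mem_primeFactors hq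
    have hq1 : (1 : ℝ) ≤ q := by exact_mod_cast hqp.one_le
    split_ifs with h
    · have : (1 : ℝ) ≤ √(q : ℝ) := Real.one_le_sqrt.2 hq1
      linarith
    · rw [one_mul]
      have h2 : (4 : ℝ) ≤ q := by exact_mod_cast not_lt.1 h
      exact Real.le_sqrt_of_sq_le (by rw [show (2 : ℝ) ^ 2 = 4 by norm_num]; exact h2)
  calc (2 : ℝ) ^ m.primeFactors.card = ∏ q ∈ m.primeFactors, (2 : ℝ) := by rw [Finset.prod_const]
    _ ≤ ∏ q ∈ m.primeFactors, ((if q < 4 then 2 else 1) * √(q : ℝ)) :=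
        Finset.prod_le_prod (fun _ _ => by norm_num) h1
    _ = (∏ q ∈ m.primeFactors, (if q < 4 then (2 : ℝ) else 1)) *
          √(∏ q ∈ m.primeFactors, (q : ℝ)) := by
        rw [Finset.prod_mul_distrib, Real.sqrt_prod _ fun q _ => Nat.cast_nonneg q]
    _ ≤ 2 ^ 4 * √(m : ℝ) := by
        have h2 : ∏ q ∈ m.primeFactors, (if q < 4 then (2 : ℝ) else 1) ≤ 2 ^ 4 := by
          rw [← Finset.prod_filter, Finset.prod_const]
          refine pow_le_pow_right₀ (by norm_num) ?_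
          have h3 : m.primeFactors.filter (fun q => q < 4) ⊆ range 4 := by
            intro q hq
            rw [Finset.mem_range]
            exact (Finset.mem_filter.1 hq).2
          have := Finset.card_le_card h3
          rwa [Finset.card_range] at this
        have h3 : (∏ q ∈ m.primeFactors, (q : ℝ)) ≤ m := by
          have h5 : ((∏ q ∈ m.primeFactors, q : ℕ) : ℝ) ≤ m :=
            Nat.cast_le.2 (Nat.le_of_dvd hm (Nat.prod_primeFactors_dvd m))
          rwa [Nat.cast_prod] at h5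
        exact mul_le_mul h2 (Real.sqrt_le_sqrt h3) (Real.sqrt_nonneg _) (by positivity)

theorem totient_ge : ∃ C : ℝ, 1 ≤ C ∧ ∀ m : ℕ, 1 ≤ m → √(m : ℝ) ≤ C * m.totient := by
  obtain ⟨C, hC1, hC⟩ := two_pow_omega
  refine ⟨C, hC1, fun m hm => ?_⟩
  have h1 := Nat.totient_mul_prod_primeFactors m
  have h2 : ∏ q ∈ m.primeFactors, q ≤ 2 ^ m.primeFactors.card * ∏ q ∈ m.primeFactors, (q - 1) := by
    rw [← Finset.prod_const, ← Finset.prod_mul_distrib]
    refine Finset.prod_le_prod' fun q hq => ?_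
    have := (Nat.prime_of_mem_primeFactors hq).two_le
    omega
  have h3 : 0 < ∏ q ∈ m.primeFactors, (q - 1) := by
    refine Finset.prod_pos fun q hq => ?_
    have := (Nat.prime_of_mem_primeFactors hq).two_le
    omega
  have h4 : m ≤ m.totient * 2 ^ m.primeFactors.card := by
    have h5 : m * ∏ q ∈ m.primeFactors, (q - 1) ≤
        m.totient * 2 ^ m.primeFactors.card * ∏ q ∈ m.primeFactors, (q - 1) := by
      rw [← h1, mul_assoc]
      exact Nat.mul_le_mul_left _ h2
    exact Nat.le_of_mul_le_mul_right h5 h3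
  have h6 : (m : ℝ) ≤ m.totient * (C * √(m : ℝ)) := by
    calc (m : ℝ) ≤ m.totient * (2 : ℝ) ^ m.primeFactors.card := by exact_mod_cast h4
      _ ≤ _ := mul_le_mul_of_nonneg_left (hC m hm) (Nat.cast_nonneg _)
  have h7 : (0 : ℝ) < √(m : ℝ) := Real.sqrt_pos.2 (by exact_mod_cast hm)
  have h8 : √(m : ℝ) * √(m : ℝ) = m := Real.mul_self_sqrt (Nat.cast_nonneg _)
  have h9 : √(m : ℝ) * √(m : ℝ) ≤ (C * m.totient) * √(m : ℝ) := by
    rw [h8]
    calc (m : ℝ) ≤ _ := h6
      _ = _ := by ring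
  exact le_of_mul_le_mul_right h9 h7

/-- the asymptotic form -/
theorem half_orb (ε : ℝ) (hε : 0 < ε) : ∃ P : ℕ, ∀ p : ℕ, p.Prime → P ≤ p →
    ∀ d : ℕ, Odd d → d ∣ p - 1 → ((irr p d).card : ℝ) ≤ (1 / 2 + ε) * ((p - 1) / d).totient := by
  obtain ⟨C, hC1, hC⟩ := totient_ge
  -- `log (1 + x) ≤ (ε / 2) x` for large `x`
  have h1 : ∀ᶠ x : ℝ in Filter.atTop, Real.log (1 + x) ≤ ε / 2 * x := by
    have h2 := (Real.isLittleO_log_id_atTop.def (show (0 : ℝ) < ε / 4 by positivity))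
    have h3 : ∀ᶠ x : ℝ in Filter.atTop, ‖Real.log (1 + x)‖ ≤ ε / 4 * ‖id (1 + x)‖ :=
      (Filter.tendsto_atTop_add_const_left _ (1 : ℝ) Filter.tendsto_id).eventually h2
    filter_upwards [h3, Filter.eventually_ge_atTop 1] with x hx hx1
    rw [id, Real.norm_eq_abs, Real.norm_eq_abs, abs_of_nonneg (Real.log_nonneg (by linarith)),
      abs_of_nonneg (by linarith)] at hx
    nlinarith
  have h2 : ∀ᶠ p : ℕ in Filter.atTop, Real.log (1 + Real.log p) ≤ ε / 2 * Real.log p :=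
    (Real.tendsto_log_atTop.comp tendsto_natCast_atTop_atTop).eventually h1
  have h2' : ∀ᶠ p : ℕ in Filter.atTop, (2 * C / ε) ^ 2 + 1 ≤ (p : ℝ) :=
    tendsto_natCast_atTop_atTop.eventually_ge_atTop _
  obtain ⟨P, hP⟩ := Filter.eventually_atTop.1 (h2.and h2')
  refine ⟨max P 5, fun p hpp hpP d hd hdvd => ?_⟩
  have : Fact p.Prime := ⟨hpp⟩
  have hp5 : 5 ≤ p := (le_max_right _ _).trans hpP
  obtain ⟨h3, h3'⟩ := hP p ((le_max_left _ _).trans hpP)
  obtain ⟨m, hm⟩ := hdvd
  have hd0 : 0 < d := hd.pos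
  have hm' : (p - 1) / d = m := by rw [hm]; exact Nat.mul_div_cancel_left _ hd0
  rw [hm']
  have hb := bound p hp5 d m hm.symm hd
  have hp0 : (0 : ℝ) < p := Nat.cast_pos.2 hpp.pos
  have hp1 : (1 : ℝ) < p := by exact_mod_cast hpp.one_lt
  have hl0 : 0 < Real.log p := Real.log_pos hp1
  have h4 := Real.log_le_log (by positivity) hb
  have h5 : (0 : ℝ) < if d = 1 then (p : ℝ) else 1 := by split_ifs <;> positivity
  rw [Real.log_pow, Real.log_mul h5.ne' (by positivity), Real.log_pow,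
    Real.log_mul (by positivity) (by positivity), Real.log_sqrt hp0.le] at h4
  have hφ0 : (0 : ℝ) ≤ m.totient := Nat.cast_nonneg _
  have h6 : Real.log (if d = 1 then (p : ℝ) else 1) ≤ ε / 2 * m.totient * Real.log p := by
    split_ifs with hd1
    · subst hd1
      rw [one_mul] at hm
      have h7 := hC m (by omega)
      have h8 : (m : ℝ) = p - 1 := by
        rw [← hm]
        push_cast [Nat.one_le_iff_ne_zero.2 hpp.ne_zero]
        ring
      have h9 : 2 * C / ε ≤ √(m : ℝ) := by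
        apply Real.le_sqrt_of_sq_le
        rw [h8]
        linarith
      have h10 : 2 * C / ε ≤ C * m.totient := h9.trans h7
      rw [div_le_iff₀ hε] at h10
      have h11 : 2 ≤ ε * m.totient := by
        have hC0 : 0 < C := by linarith
        have : C * 2 ≤ C * (ε * m.totient) := by linarith
        exact le_of_mul_le_mul_left this hC0
      have h12 : 1 * Real.log p ≤ ε / 2 * m.totient * Real.log p :=
        mul_le_mul_of_nonneg_right (by linarith) hl0.le
      linarith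
    · rw [Real.log_one]
      positivity
  have h8 : ((irr p d).card : ℝ) * Real.log p ≤ ((1 / 2 + ε) * m.totient) * Real.log p := by
    have h9 : (m.totient : ℝ) * (Real.log p / 2 + Real.log (1 + Real.log p)) ≤
        m.totient * (Real.log p / 2 + ε / 2 * Real.log p) :=
      mul_le_mul_of_nonneg_left (by linarith) hφ0
    calc ((irr p d).card : ℝ) * Real.log p ≤ _ := h4
      _ ≤ ε / 2 * m.totient * Real.log p + m.totient * (Real.log p / 2 + ε / 2 * Real.log p) :=
          add_le_add h6 h9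
      _ = _ := by ring
  exact le_of_mul_le_mul_right h8 hl0

/-- fixed order -/
theorem half_fixed (m : ℕ) (hm : 2 ≤ m) : ∃ P : ℕ, ∀ p : ℕ, p.Prime → P ≤ p → ∀ d : ℕ, Odd d →
    d * m = p - 1 → 2 * (irr p d).card ≤ m.totient := by
  have hφ : 0 < m.totient := Nat.totient_pos.2 (by omega)
  have hφ' : (0 : ℝ) < m.totient := Nat.cast_pos.2 hφ
  obtain ⟨P, hP⟩ := half_orb (1 / (4 * m.totient)) (by positivity)
  refine ⟨P, fun p hpp hpP d hd hdm => ?_⟩
  have h1 := hP p hpp hpP d hd ⟨m, hdm.symm⟩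
  have hd0 : 0 < d := hd.pos
  have hm' : (p - 1) / d = m := by rw [← hdm]; exact Nat.mul_div_cancel_left _ hd0
  rw [hm'] at h1
  have h2 : (1 / 2 + 1 / (4 * (m.totient : ℝ))) * m.totient = m.totient / 2 + 1 / 4 := by
    field_simp
  rw [h2] at h1
  have h3 : (2 * (irr p d).card : ℝ) < m.totient + 1 := by linarith
  have h4 : 2 * (irr p d).card < m.totient + 1 := by exact_mod_cast h3
  omega

end Pool.Agent.Q250.RP
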